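import Pool.Agent.H73.LPC.Stmts

/-! # Row RKE of the board `lpc`: the rank condition extends -/

set_option autoImplicit false

open Set Filter Topology MeasureTheory Metric

namespace Pool.LPC

open Pool.PHS

theorem RKE_thm (h1 : SM2Stmt) (h2 : ID2Stmt) (h3 : CNNStmt) : RKEStmt := by
  intro n δ G hδ hδ1 hG hR p hp i l
  obtain ⟨c1, c2, c3, _, c5, c6⟩ := h3 δ hδ hδ1
  obtain ⟨_, hz, hw⟩ := h1 (Cn n) G (BD δ) c1 hG
  have hz' : ∀ k : Fin n, DifferentiableOn ℂ (fun q => pz G q k) (BD δ) := fun k =>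
    (differentiableOn_pi.1 hz) k
  have hw' : ∀ k : Fin n, DifferentiableOn ℂ (fun q => pw G q k) (BD δ) := fun k =>
    (differentiableOn_pi.1 hw) k
  have hm : DifferentiableOn ℂ (fun q => pz G q i * pw G q l - pw G q i * pz G q l) (BD δ) :=
    ((hz' i).mul (hw' l)).sub ((hw' i).mul (hz' l))
  have h0 : DifferentiableOn ℂ (fun _ : ℂ × ℂ => (0 : ℂ)) (BD δ) := differentiableOn_const 0
  have key := h2 ℂ (fun q => pz G q i * pw G q l - pw G q i * pz G q l) (fun _ => 0) (BD δ)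
    (HF δ) c1 c2 hm h0 c3 c6 c5 (fun q hq => hR q hq i l)
  exact key hp

end Pool.LPC
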